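import Pool.Agent.X184.SS.Stm

/-! Parts STEP and BASE of project SS (MP_3cdc4e_an): one core lemma on sums of `p` almost disjoint
vectors, from which both follow. -/

set_option autoImplicit false

namespace Pool.Agent.X217.SS

open Finset Pool.Agent.X184.SS

theorem sch_empty (n : ℕ) : (∅ : Finset ℕ) ∈ Sch n := by
  cases n with
  | zero => simp [Sch]
  | succ n => exact ⟨0, fun i => i.elim0, fun i => i.elim0, fun i => i.elim0, by simp, by simp⟩

theorem sch_succ (n : ℕ) (F : Finset ℕ) (h : F ∈ Sch n) : F ∈ Sch (n + 1) := by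
  rcases F.eq_empty_or_nonempty with rfl | hne
  · exact sch_empty _
  · refine ⟨1, fun _ => F, fun _ => ⟨hne, h⟩, ?_, ?_, fun a _ => by omega⟩
    · intro i j hij
      omega
    · ext a
      simp

theorem sch_mono {i n : ℕ} (h : i ≤ n) {F : Finset ℕ} (hF : F ∈ Sch i) : F ∈ Sch n := by
  induction h with
  | refl => exact hF
  | step _ ih => exact sch_succ _ _ ih

theorem sch_sing (n a : ℕ) : ({a} : Finset ℕ) ∈ Sch n :=
  sch_mono (Nat.zero_le n) (by simp [Sch])

/-- normalisation -/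
theorem normal (hher : ∀ (n : ℕ) (F G : Finset ℕ), F ∈ Sch n → G ⊆ F → G ∈ Sch n)
    (Z : Submodule ℝ (ℕ → ℝ)) (n : ℕ) (hT : Tails Z n) (w : ℕ → ℝ) (hw : w ∈ Z) (b : ℝ) (hb : 0 < b)
    (h : ∃ F ∈ Sch (n + 1), b ≤ ∑ j ∈ F, |w j|) :
    ∃ c : ℝ, 0 < c ∧ c * b ≤ 1 ∧ (∀ F ∈ Sch (n + 1), ∑ j ∈ F, |(c • w) j| ≤ 1) ∧
      (∃ F ∈ Sch (n + 1), 1 / 2 ≤ ∑ j ∈ F, |(c • w) j|) := by
  obtain ⟨N, hN⟩ := hT w hw 1 one_pos
  set S : Set ℝ := {s | ∃ F ∈ Sch (n + 1), s = ∑ j ∈ F, |w j|} with hS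
  have hbdd : BddAbove S := by
    refine ⟨∑ j ∈ range N, |w j| + 1, ?_⟩
    rintro s ⟨F, hF, rfl⟩
    rw [← Finset.sum_filter_add_sum_filter_not F (fun j => j < N)]
    refine add_le_add ?_ ?_
    · refine Finset.sum_le_sum_of_subset_of_nonneg ?_ (fun _ _ _ => abs_nonneg _)
      intro a ha
      simp only [Finset.mem_filter] at ha
      exact Finset.mem_range.2 ha.2
    · refine hN _ (hher _ F _ hF (Finset.filter_subset _ _)) ?_
      intro a ha
      simp only [Finset.mem_filter, not_lt] at ha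
      exact ha.2
  obtain ⟨F₀, hF₀, hb₀⟩ := h
  have hmem : ∑ j ∈ F₀, |w j| ∈ S := ⟨F₀, hF₀, rfl⟩
  have hB : b ≤ sSup S := hb₀.trans (le_csSup hbdd hmem)
  have hBpos : 0 < sSup S := hb.trans_le hB
  have hsum : ∀ F : Finset ℕ, ∑ j ∈ F, |((sSup S)⁻¹ • w) j| = (sSup S)⁻¹ * ∑ j ∈ F, |w j| := by
    intro F
    rw [Finset.mul_sum]
    refine Finset.sum_congr rfl fun j _ => ?_
    simp only [Pi.smul_apply, smul_eq_mul, abs_mul]
    rw [abs_of_pos (inv_pos.2 hBpos)]
  refine ⟨(sSup S)⁻¹, inv_pos.2 hBpos, ?_, ?_, ?_⟩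
  · rw [inv_mul_le_iff₀ hBpos, mul_one]
    exact hB
  · intro F hF
    rw [hsum, inv_mul_le_iff₀ hBpos, mul_one]
    exact le_csSup hbdd ⟨F, hF, rfl⟩
  · have : sSup S / 2 < sSup S := by linarith
    obtain ⟨s, ⟨F, hF, rfl⟩, hs⟩ := exists_lt_of_lt_csSup ⟨_, hmem⟩ this
    refine ⟨F, hF, ?_⟩
    rw [hsum, le_inv_mul_iff₀ hBpos]
    linarith

/-- the sums of `q` almost disjoint vectors -/
theorem build (hher : ∀ (n : ℕ) (F G : Finset ℕ), F ∈ Sch n → G ⊆ F → G ∈ Sch n)
    (Z : Submodule ℝ (ℕ → ℝ)) (n : ℕ) (C : ℝ) (hC : 0 < C) (hT : Tails Z n) (hD : Dom Z n C)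
    (𝒢 : Set (Finset ℕ)) (hsub : ∀ F ∈ 𝒢, F ∈ Sch (n + 1))
    (H : ∀ (L : ℕ) (η : ℝ), 0 < η → ∃ z ∈ Z, (∀ j < L, z j = 0) ∧
      (∀ F ∈ Sch (n + 1), ∑ j ∈ F, |z j| ≤ 1) ∧
      (∃ F ∈ Sch (n + 1), 1 / 2 ≤ ∑ j ∈ F, |z j|) ∧
      ∀ F ∈ 𝒢, (∃ a ∈ F, a < L) → ∑ j ∈ F, |z j| ≤ η)
    (N₀ : ℕ) (η : ℝ) (hη : 0 < η) (q : ℕ) :
    ∃ w ∈ Z, ∃ L : ℕ, N₀ ≤ L ∧ (∀ j < N₀, w j = 0) ∧
      (∀ F ∈ Sch (n + 1), (∀ a ∈ F, L ≤ a) → ∑ j ∈ F, |w j| ≤ η) ∧
      (∃ G : Fin q → Finset ℕ, (∀ i, G i ∈ Sch n) ∧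
        (∀ i j, i < j → ∀ a ∈ G i, ∀ b ∈ G j, a < b) ∧
        (∀ i, ∀ a ∈ G i, N₀ ≤ a ∧ a < L) ∧ ∀ i, 1 / (3 * C) - η ≤ ∑ j ∈ G i, |w j|) ∧
      ∀ F ∈ 𝒢, ∑ j ∈ F, |w j| ≤ 1 + q * η := by
  induction q with
  | zero =>
    refine ⟨0, Z.zero_mem, N₀, le_rfl, fun _ _ => rfl, ?_, ⟨fun i => i.elim0, fun i => i.elim0,
      fun i => i.elim0, fun i => i.elim0, fun i => i.elim0⟩, ?_⟩
    · intro F _ _
      simp [hη.le]
    · intro F _
      simp
  | succ q ih =>
    obtain ⟨w, hw, L, hL, h0, htail, ⟨G, hG1, hG2, hG3, hG4⟩, hup⟩ := ih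
    obtain ⟨z, hz, hz0, hz1, hz2, hz3⟩ := H L η hη
    have hex : ∃ E ∈ Sch n, 1 / (3 * C) < ∑ j ∈ E, |z j| := by
      by_contra hcon
      push Not at hcon
      obtain ⟨F, hF, hF2⟩ := hz2
      have h1 := hD z hz (1 / (3 * C)) hcon F hF
      have h2 : C * (1 / (3 * C)) = 1 / 3 := by field_simp
      rw [h2] at h1
      linarith
    obtain ⟨E, hE, hE2⟩ := hex
    set E' := E.filter (fun a => L ≤ a) with hE'
    have hE's : E' ∈ Sch n := hher _ _ _ hE (Finset.filter_subset _ _)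
    have hE'2 : 1 / (3 * C) < ∑ j ∈ E', |z j| := by
      have : ∑ j ∈ E, |z j| = ∑ j ∈ E', |z j| := by
        rw [hE', Finset.sum_filter]
        refine Finset.sum_congr rfl fun j _ => ?_
        split_ifs with hj
        · rfl
        · rw [hz0 j (not_le.1 hj), abs_zero]
      rw [← this]
      exact hE2
    have hE'3 : ∀ a ∈ E', L ≤ a := by
      intro a ha
      exact (Finset.mem_filter.1 ha).2
    obtain ⟨L₁, hL₁⟩ := hT (w + z) (Z.add_mem hw hz) η hη
    refine ⟨w + z, Z.add_mem hw hz, max (max L L₁) (E'.sup id + 1), ?_, ?_, ?_, ?_, ?_⟩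
    · exact hL.trans ((le_max_left _ _).trans (le_max_left _ _))
    · intro j hj
      simp only [Pi.add_apply, h0 j hj, hz0 j (hj.trans_le hL), add_zero]
    · intro F hF ha
      exact hL₁ F hF fun a haF => ((le_max_right L L₁).trans (le_max_left _ _)).trans (ha a haF)
    · refine ⟨Fin.snoc G E', ?_, ?_, ?_, ?_⟩
      · intro i
        induction i using Fin.lastCases with
        | last => simpa using hE's
        | cast i => simpa using hG1 i
      · intro i j hij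
        induction j using Fin.lastCases with
        | last =>
          induction i using Fin.lastCases with
          | last => exact absurd hij (lt_irrefl _)
          | cast i =>
            simp only [Fin.snoc_castSucc, Fin.snoc_last]
            intro a ha b hb
            exact (hG3 i a ha).2.trans_le (hE'3 b hb)
        | cast j =>
          induction i using Fin.lastCases with
          | last => exact absurd (hij.trans (Fin.castSucc_lt_last j)) (lt_irrefl _)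
          | cast i =>
            simp only [Fin.snoc_castSucc]
            exact hG2 i j (by simpa using hij)
      · intro i
        induction i using Fin.lastCases with
        | last =>
          simp only [Fin.snoc_last]
          intro a ha
          refine ⟨hL.trans (hE'3 a ha), ?_⟩
          have : a ≤ E'.sup id := Finset.le_sup (f := id) ha
          exact (Nat.lt_succ_of_le this).trans_le (le_max_right _ _)
        | cast i =>
          simp only [Fin.snoc_castSucc]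
          intro a ha
          exact ⟨(hG3 i a ha).1, (hG3 i a ha).2.trans_le ((le_max_left _ _).trans (le_max_left _ _))⟩
      · intro i
        induction i using Fin.lastCases with
        | last =>
          simp only [Fin.snoc_last]
          have h1 : ∑ j ∈ E', |w j| ≤ η := htail E' (sch_succ _ _ hE's) hE'3
          have h2 : ∑ j ∈ E', |z j| ≤ ∑ j ∈ E', |(w + z) j| + ∑ j ∈ E', |w j| := by
            rw [← Finset.sum_add_distrib]
            refine Finset.sum_le_sum fun j _ => ?_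
            have := abs_sub ((w + z) j) (w j)
            simp only [Pi.add_apply, add_sub_cancel_left] at this ⊢
            exact this
          linarith
        | cast i =>
          simp only [Fin.snoc_castSucc]
          refine (hG4 i).trans (le_of_eq ?_)
          refine Finset.sum_congr rfl fun j hj => ?_
          simp only [Pi.add_apply, hz0 j (hG3 i j hj).2, add_zero]
    · intro F hF
      have h2 : ∑ j ∈ F, |(w + z) j| ≤ ∑ j ∈ F, |w j| + ∑ j ∈ F, |z j| := by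
        rw [← Finset.sum_add_distrib]
        exact Finset.sum_le_sum fun j _ => abs_add_le _ _
      push_cast
      by_cases hc : ∃ a ∈ F, a < L
      · have h3 := hup F hF
        have h4 := hz3 F hF hc
        nlinarith
      · push Not at hc
        have h3 := htail F (hsub F hF) hc
        have h4 := hz1 F (hsub F hF)
        have h5 : (0 : ℝ) ≤ q * η := by positivity
        nlinarith

theorem core (hU : S_UNI) (hher : ∀ (n : ℕ) (F G : Finset ℕ), F ∈ Sch n → G ⊆ F → G ∈ Sch n)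
    (Z : Submodule ℝ (ℕ → ℝ)) (n : ℕ) (C : ℝ) (hC : 0 < C) (hT : Tails Z n) (hD : Dom Z n C)
    (𝒢 : Set (Finset ℕ)) (hsub : ∀ F ∈ 𝒢, F ∈ Sch (n + 1))
    (H : ∀ (L : ℕ) (η : ℝ), 0 < η → ∃ z ∈ Z, (∀ j < L, z j = 0) ∧
      (∀ F ∈ Sch (n + 1), ∑ j ∈ F, |z j| ≤ 1) ∧
      (∃ F ∈ Sch (n + 1), 1 / 2 ≤ ∑ j ∈ F, |z j|) ∧
      ∀ F ∈ 𝒢, (∃ a ∈ F, a < L) → ∑ j ∈ F, |z j| ≤ η)
    (ε : ℝ) (hε : 0 < ε) (N : ℕ) :
    ∃ z ∈ Z, (∀ j < N, z j = 0) ∧ (∀ F ∈ Sch (n + 1), ∑ j ∈ F, |z j| ≤ 1) ∧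
      (∃ F ∈ Sch (n + 1), 1 / 2 ≤ ∑ j ∈ F, |z j|) ∧ ∀ F ∈ 𝒢, ∑ j ∈ F, |z j| ≤ ε := by
  obtain ⟨p, hp⟩ := exists_nat_gt (12 * C / ε)
  have hp0 : (0 : ℝ) < p := lt_of_le_of_lt (by positivity) hp
  set η : ℝ := min (1 / (6 * C)) (1 / p) with hη
  have hηpos : 0 < η := lt_min (by positivity) (by positivity)
  have hη1 : η ≤ 1 / (6 * C) := min_le_left _ _
  have hη2 : p * η ≤ 1 := by
    have : η ≤ 1 / p := min_le_right _ _
    calc p * η ≤ p * (1 / p) := mul_le_mul_of_nonneg_left this hp0.le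
      _ = 1 := by field_simp
  obtain ⟨w, hw, L, hL, h0, htail, ⟨G, hG1, hG2, hG3, hG4⟩, hup⟩ :=
    build hher Z n C hC hT hD 𝒢 hsub H (max N p) η hηpos p
  have hS : univ.biUnion G ∈ Sch (n + 1) :=
    hU n p G hG1 hG2 fun i a ha => ((le_max_right N p).trans (hG3 i a ha).1).trans (Nat.le_succ a)
  have hsum : p * (1 / (6 * C)) ≤ ∑ j ∈ univ.biUnion G, |w j| := by
    rw [Finset.sum_biUnion]
    · have : ∑ i : Fin p, (1 / (6 * C)) ≤ ∑ i : Fin p, ∑ j ∈ G i, |w j| := by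
        refine Finset.sum_le_sum fun i _ => ?_
        refine le_trans ?_ (hG4 i)
        have : 1 / (3 * C) = 1 / (6 * C) + 1 / (6 * C) := by field_simp; norm_num
        rw [this]
        linarith
      simpa using this
    · intro i _ j _ hij
      rw [Function.onFun, Finset.disjoint_left]
      intro a hai haj
      rcases lt_or_gt_of_ne hij with h | h
      · exact lt_irrefl _ (hG2 i j h a hai a haj)
      · exact lt_irrefl _ (hG2 j i h a haj a hai)
  obtain ⟨c, hc, hcb, hc1, hc2⟩ := normal hher Z n hT w hw (p * (1 / (6 * C))) (by positivity)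
    ⟨_, hS, hsum⟩
  refine ⟨c • w, Z.smul_mem c hw, ?_, hc1, hc2, ?_⟩
  · intro j hj
    simp only [Pi.smul_apply, h0 j (hj.trans_le (le_max_left _ _)), smul_zero]
  · intro F hF
    have h1 : ∑ j ∈ F, |(c • w) j| = c * ∑ j ∈ F, |w j| := by
      rw [Finset.mul_sum]
      refine Finset.sum_congr rfl fun j _ => ?_
      simp only [Pi.smul_apply, smul_eq_mul, abs_mul, abs_of_pos hc]
    rw [h1]
    have h2 := hup F hF
    have h3 : c * ∑ j ∈ F, |w j| ≤ c * 2 := mul_le_mul_of_nonneg_left (by linarith) hc.le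
    refine h3.trans ?_
    have h4 : 12 * C < p * ε := by
      rwa [div_lt_iff₀ hε] at hp
    have h5 : c * p ≤ 6 * C := by
      have h6 : c * (p * (1 / (6 * C))) = c * p / (6 * C) := by field_simp
      rw [h6, div_le_one (by positivity)] at hcb
      exact hcb
    -- c * 2 ≤ ε
    by_contra hcon
    push Not at hcon
    have h7 : ε * p < c * 2 * p := mul_lt_mul_of_pos_right hcon hp0
    nlinarith

theorem t_STEP : S_STEP := by
  intro hU hher Z n C hC hT hD i hi hgood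
  refine core hU hher Z n C hC hT hD (Sch (i + 1)) (fun F hF => sch_mono (by omega) hF) ?_
  intro L η hη
  obtain ⟨z, hz, hz0, hz1, hz2, hz3⟩ := hgood (η / (L + 1)) (by positivity) L
  refine ⟨z, hz, hz0, hz1, hz2, ?_⟩
  rintro F ⟨k, G, hG, hsucc, rfl, hk⟩ ⟨a, ha, haL⟩
  have hkL : k ≤ L := (hk a ha).trans haL
  have h1 : ∑ j ∈ univ.biUnion G, |z j| = ∑ l : Fin k, ∑ j ∈ G l, |z j| := by
    rw [Finset.sum_biUnion]
    intro i _ j _ hij
    rw [Function.onFun, Finset.disjoint_left]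
    intro a hai haj
    rcases lt_or_gt_of_ne hij with h | h
    · exact lt_irrefl _ (hsucc i j h a hai a haj)
    · exact lt_irrefl _ (hsucc j i h a haj a hai)
  rw [h1]
  have h2 : ∑ l : Fin k, ∑ j ∈ G l, |z j| ≤ ∑ l : Fin k, η / (L + 1) :=
    Finset.sum_le_sum fun l _ => hz3 _ (hG l).2
  refine h2.trans ?_
  simp only [Finset.sum_const, Finset.card_univ, Fintype.card_fin, nsmul_eq_mul]
  have hkL' : (k : ℝ) ≤ L := by exact_mod_cast hkL
  rw [mul_div_assoc', div_le_iff₀ (by positivity)]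
  nlinarith

theorem t_BASE : S_BASE := by
  intro hU hher Z n C hZ hC hT hD
  refine core hU hher Z n C hC hT hD (Sch 0) (fun F hF => sch_mono (by omega) hF) ?_
  intro L η hη
  -- a nonzero vector vanishing before L
  have hex : ∃ z ∈ Z, z ≠ 0 ∧ ∀ j < L, z j = 0 := by
    by_contra hcon
    push Not at hcon
    apply hZ
    let φ : Z →ₗ[ℝ] (Fin L → ℝ) :=
      { toFun := fun z i => (z : ℕ → ℝ) i
        map_add' := fun _ _ => rfl
        map_smul' := fun _ _ => rfl }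
    have hinj : Function.Injective φ := by
      rw [← LinearMap.ker_eq_bot, LinearMap.ker_eq_bot']
      intro z hz
      by_contra hne
      obtain ⟨j, hj, hzj⟩ := hcon z z.2 (fun h => hne (Subtype.ext h))
      exact hzj (congrFun hz ⟨j, hj⟩)
    exact FiniteDimensional.of_injective φ hinj
  obtain ⟨z, hz, hne, hz0⟩ := hex
  obtain ⟨a, ha⟩ : ∃ a, z a ≠ 0 := by
    by_contra hcon
    push Not at hcon
    exact hne (funext hcon)
  obtain ⟨c, hc, -, hc1, hc2⟩ := normal hher Z n hT z hz |z a| (abs_pos.2 ha)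
    ⟨{a}, sch_sing _ a, by simp⟩
  refine ⟨c • z, Z.smul_mem c hz, ?_, hc1, hc2, ?_⟩
  · intro j hj
    simp [hz0 j hj]
  · rintro F hF ⟨b, hb, hbL⟩
    have hF1 : F = {b} := by
      have : F.card ≤ 1 := hF
      exact (Finset.card_eq_one.1 (le_antisymm this (Finset.card_pos.2 ⟨b, hb⟩))).elim
        (fun x hx => by rw [hx] at hb ⊢; rw [Finset.mem_singleton.1 hb])
    rw [hF1]
    simp [hz0 b hbL, hη.le]

end Pool.Agent.X217.SS
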